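import Pool.Agent.helper55.GL.Spec

set_option autoImplicit false

namespace Pool.Agent.GL

open SimpleGraph

/-- comparison of powers. -/
theorem SC3_pow (k : ℕ) (hk : 1 ≤ k) (x y A C C' : ℕ) (h1 : x ^ k ≤ C * A) (h2 : A ≤ C' * y ^ k) :
    x ≤ C * C' * y := by
  have h3 : x ^ k ≤ (C * C' * y) ^ k := by
    calc x ^ k ≤ C * A := h1
      _ ≤ C * (C' * y ^ k) := Nat.mul_le_mul_left _ h2
      _ = (C * C') * y ^ k := by ring
      _ ≤ (C * C') ^ k * y ^ k := Nat.mul_le_mul_right _ (Nat.le_self_pow (by omega) _)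
      _ = (C * C' * y) ^ k := (mul_pow _ _ _).symm
  exact (Nat.pow_le_pow_iff_left (by omega)).1 h3

/-- SC3 (assembly). Uses CL3, UP1, UP2, LC4, LK3, SYM, SCL, ACN, TRV. -/
theorem SC3 (hCL3 : CL3_stmt) (hUP1 : UP1_stmt) (hUP2 : UP2_stmt) (hLC4 : LC4_stmt)
    (hLK3 : LK3_stmt) (hSYM : SYM_stmt) (hSCL : SCL_stmt) (hACN : ACN_stmt) (hTRV : TRV_stmt) :
    SC3_stmt := by
  intro V _ H c hPr hAt hrow
  classical
  by_cases hV : 3 ≤ Fintype.card V
  · rcases hCL3 V H c hPr hAt hV hrow with h33 | ⟨h2, h22 | ⟨σ, hσ⟩⟩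
    · obtain ⟨C, hC⟩ := hUP1 V H c hPr hrow
      obtain ⟨C', hC'⟩ := hLK3
      refine ⟨C * C', 2, fun n hn => ?_⟩
      refine SC3_pow 3 (by norm_num) _ _ (n ^ 5) C C' (hC n) ((hC' n hn).trans ?_)
      exact Nat.mul_le_mul_left _ (Nat.pow_le_pow_left h33.extremalNumber_le _)
    · obtain ⟨C, hC⟩ := hUP2 V H c hPr hrow h2
      obtain ⟨C', hC'⟩ := hLC4
      refine ⟨C * C', 2, fun n hn => ?_⟩
      refine SC3_pow 2 (by norm_num) _ _ (n ^ 3) C C' (hC n) ((hC' n hn).trans ?_)
      exact Nat.mul_le_mul_left _ (Nat.pow_le_pow_left h22.extremalNumber_le _)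
    · have hne : Nonempty V := by
        rw [← Fintype.card_pos_iff]
        omega
      have hconn := hACN V H hne hAt
      refine ⟨6, 2, fun n hn => ?_⟩
      refine (hSYM V V H H c c id σ hconn hPr Function.injective_id σ.injective
        (fun a b h => h) (fun a b h => (σ.map_adj_iff).2 h) (fun a => rfl) hσ n).trans ?_
      exact hSCL V H n hn
  · refine hTRV V H c hPr ?_
    intro e he e' he'
    induction e using Sym2.ind with
    | _ a b =>
      induction e' using Sym2.ind with
      | _ a' b' =>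
        rw [SimpleGraph.mem_edgeSet] at he he'
        have hab := he.ne
        have hab' := he'.ne
        have huniv : ({a, b} : Finset V) = Finset.univ := by
          refine Finset.eq_of_subset_of_card_le (Finset.subset_univ _) ?_
          rw [Finset.card_pair hab, Finset.card_univ]
          omega
        have ha' : a' ∈ ({a, b} : Finset V) := huniv ▸ Finset.mem_univ a'
        have hb' : b' ∈ ({a, b} : Finset V) := huniv ▸ Finset.mem_univ b'
        rw [Finset.mem_insert, Finset.mem_singleton] at ha' hb'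
        rcases ha' with rfl | rfl <;> rcases hb' with rfl | rfl
        · exact absurd rfl hab'
        · rfl
        · exact Sym2.eq_swap
        · exact absurd rfl hab'

end Pool.Agent.GL
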